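import Mathlib
import Pool.Agent.Helper76_LAG.Stmt

/-!
# LAG: module BIT (the bits are independent of the rest of the state)
-/

set_option autoImplicit false

namespace Pool.Agent.LAG

namespace Bit

open Classical

variable {V : Type} {L : ℕ} (E : Env V)

section same

variable {E} {ω ω' : V → St L} (h : ∀ v, (ω v).1 = (ω' v).1)

include h

lemma ptn_iff (v u w : V) : Ptn E ω v u w ↔ Ptn E ω' v u w := by
  unfold Ptn
  rw [h v]

lemma kil_iff (v u : V) : Kil E ω v u ↔ Kil E ω' v u := by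
  unfold Kil
  rw [h v]

lemma alv_iff (u v : V) : Alv E ω u v ↔ Alv E ω' u v := by
  unfold Alv
  rw [kil_iff h, kil_iff h]

lemma nxt_eq (e : V × V) : Nxt E ω e = Nxt E ω' e := by
  funext w
  unfold Nxt
  rw [alv_iff h, ptn_iff h]

lemma stp_iff (e : V × V) : stp E ω e ↔ stp E ω' e := by
  unfold stp
  rw [nxt_eq h]

lemma nx_eq : nx E ω = nx E ω' := by
  funext e
  unfold nx
  have h1 := nxt_eq (E := E) h e
  by_cases h2 : ∃ w, Nxt E ω e w
  · have h3 : ∃ w, Nxt E ω' e w := by rwa [h1] at h2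
    rw [dif_pos h2, dif_pos h3]
    congr 2
  · have h3 : ¬ ∃ w, Nxt E ω' e w := by rwa [h1] at h2
    rw [dif_neg h2, dif_neg h3]

lemma key_eq (T : ℕ) : key E ω T = key E ω' T := by
  funext e
  unfold key
  rw [nx_eq h]

lemma skey_eq (T : ℕ) : skey E ω T = skey E ω' T := by
  funext e
  unfold skey
  rw [key_eq h]

end same

/-- Flip some bits. -/
def flip (ω : V → St L) (S : V → Fin 4 → Bool) : V → St L :=
  fun v => ((ω v).1, fun s => xor ((ω v).2 s) (S v s))

lemma flip_fst (ω : V → St L) (S : V → Fin 4 → Bool) (v : V) : (flip ω S v).1 = (ω v).1 := rfl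

/-- The value of `S` at a dart. -/
def atD (S : V → Fin 4 → Bool) (d : V × V) : Bool := S d.2 (E.slot d.2 d.1)

lemma nx_of_stp {ω : V → St L} {e : V × V} (h : stp E ω e) : nx E ω e = e := by
  unfold nx
  exact dif_neg h

lemma colD_flip (ω : V → St L) (S : V → Fin 4 → Bool) (n : ℕ) (e : V × V) :
    colD E (flip ω S) n e = xor (colD E ω n e) (atD E S ((nx E ω)^[n] e)) := by
  induction n generalizing e with
  | zero => rfl
  | succ n ih =>
    have hs : stp E (flip ω S) e ↔ stp E ω e := stp_iff (flip_fst ω S) e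
    have hn : nx E (flip ω S) = nx E ω := nx_eq (flip_fst ω S)
    by_cases h : stp E ω e
    · have h1 : (nx E ω)^[n + 1] e = e := by
        rw [Function.iterate_fixed (nx_of_stp E h)]
      simp only [colD]
      rw [if_pos (hs.mpr h), if_pos h, h1]
      rfl
    · simp only [colD]
      rw [if_neg (fun h' => h (hs.mp h')), if_neg h, hn, ih, Function.iterate_succ_apply]
      generalize colD E ω n (nx E ω e) = a
      generalize atD E S ((nx E ω)^[n] (nx E ω e)) = b
      cases a <;> cases b <;> rfl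

lemma col_flip (ω : V → St L) (S : V → Fin 4 → Bool) (T : ℕ) (e : V × V) :
    col E (flip ω S) T e = xor (col E ω T e) (atD E S (skey E ω T e)) := by
  unfold col skey
  rw [key_eq (flip_fst ω S)]
  by_cases h : E.ord (key E ω T e) < E.ord (key E ω T e.swap)
  · rw [if_pos h, if_pos h, if_pos h, colD_flip]
    rfl
  · rw [if_neg h, if_neg h, if_neg h, colD_flip]
    rfl

lemma adj_nx {ω : V → St L} {e : V × V} (h : E.H.Adj e.1 e.2) :
    E.H.Adj (nx E ω e).1 (nx E ω e).2 := by
  unfold nx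
  split_ifs with h1
  · exact h1.choose_spec.1.1
  · exact h

lemma adj_iter {ω : V → St L} (n : ℕ) {e : V × V} (h : E.H.Adj e.1 e.2) :
    E.H.Adj ((nx E ω)^[n] e).1 ((nx E ω)^[n] e).2 := by
  induction n generalizing e with
  | zero => exact h
  | succ n ih =>
    rw [Function.iterate_succ_apply]
    exact ih (adj_nx E h)

lemma adj_skey {ω : V → St L} (T : ℕ) {e : V × V} (h : E.H.Adj e.1 e.2) :
    E.H.Adj (skey E ω T e).1 (skey E ω T e).2 := by
  unfold skey key
  split_ifs
  · exact adj_iter E T h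
  · exact adj_iter E T (e := e.swap) h.symm

/-- The flips at the darts `d 1, …, d r`. -/
noncomputable def flips {r : ℕ} (d : ℕ → V × V) (f : Fin r → Bool) : V → Fin 4 → Bool :=
  fun v s => decide (∃ t : Fin r, f t = true ∧ (d (t.1 + 1)).2 = v ∧
    E.slot (d (t.1 + 1)).2 (d (t.1 + 1)).1 = s)

lemma flips_at {r : ℕ} {d : ℕ → V × V} (hd : ∀ t, t ≤ r → E.H.Adj (d t).1 (d t).2)
    (hinj : ∀ s t, s ≤ r → t ≤ r → d s = d t → s = t) (f : Fin r → Bool) (t : Fin r) :
    atD E (flips E d f) (d (t.1 + 1)) = f t := by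
  unfold atD flips
  by_cases hf : f t = true
  · rw [hf]
    simp only [decide_eq_true_eq]
    exact ⟨t, hf, rfl, rfl⟩
  · have hf' : f t = false := by simpa using hf
    rw [hf']
    simp only [decide_eq_false_iff_not]
    rintro ⟨s, hs, h1, h2⟩
    have h3 : (d (s.1 + 1)).1 = (d (t.1 + 1)).1 := by
      refine E.slot_inj (d (t.1 + 1)).2 _ _ ?_ ?_ ?_
      · rw [← h1]
        exact (hd _ (by omega)).symm
      · exact (hd _ (by omega)).symm
      · rw [← h2, h1]
    have h4 := hinj (s.1 + 1) (t.1 + 1) (by omega) (by omega) (Prod.ext h3 h1)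
    have h5 : s = t := Fin.ext (by omega)
    rw [h5] at hs
    exact hf hs

lemma flips_zero {r : ℕ} {d : ℕ → V × V} (hd : ∀ t, t ≤ r → E.H.Adj (d t).1 (d t).2)
    (hinj : ∀ s t, s ≤ r → t ≤ r → d s = d t → s = t) (f : Fin r → Bool) :
    atD E (flips E d f) (d 0) = false := by
  unfold atD flips
  simp only [decide_eq_false_iff_not]
  rintro ⟨s, hs, h1, h2⟩
  have h3 : (d (s.1 + 1)).1 = (d 0).1 := by
    refine E.slot_inj (d 0).2 _ _ ?_ ?_ ?_
    · rw [← h1]
      exact (hd _ (by omega)).symm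
    · exact (hd _ (by omega)).symm
    · rw [← h2, h1]
  have h4 := hinj (s.1 + 1) 0 (by omega) (by omega) (Prod.ext h3 h1)
  omega

lemma adj_edg {n : ℕ} {G : SimpleGraph V} {z : Fin (n + 1) → V} (hz : IsC G (cyc z) (n + 1))
    (t : ℕ) : G.Adj (edg z t).1 (edg z t).2 := by
  have hmod : ∀ t, cyc z (t % (n + 1)) = cyc z t := by
    intro t
    unfold cyc
    congr 1
    ext
    simp [Fin.ofNat]
  have h1 := hz.2.1 ((t + n) % (n + 1)) (Nat.mod_lt _ (Nat.succ_pos _))
  rw [hmod] at h1
  have h2 : cyc z ((t + n) % (n + 1) + 1) = cyc z t := by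
    rw [← hmod ((t + n) % (n + 1) + 1), Nat.mod_add_mod, ← hmod t]
    congr 1
    rw [Nat.add_assoc, Nat.add_mod_right]
  rw [h2] at h1
  exact h1

end Bit

open Bit in
theorem bit : BitStmt := by
  classical
  intro V _ L T ℓ E n z r y κ P
  have hcard : Nat.card ({ω : V → St L // BEv E ω T ℓ z r y κ ∧ P (fun v => (ω v).1)} ×
      (Fin r → Bool)) =
      2 ^ r * Nat.card {ω : V → St L // BEv E ω T ℓ z r y κ ∧ P (fun v => (ω v).1)} := by
    rw [Nat.card_prod, Nat.card_eq_fintype_card (α := Fin r → Bool)]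
    simp [mul_comm]
  rw [← hcard]
  let D : (V → St L) → ℕ → V × V := fun ω t => skey E ω T (edg z t)
  have hD : ∀ ω : V → St L, BEv E ω T ℓ z r y κ →
      (∀ t, t ≤ r → E.H.Adj (D ω t).1 (D ω t).2) ∧
      (∀ s t, s ≤ r → t ≤ r → D ω s = D ω t → s = t) := by
    intro ω hω
    exact ⟨fun t _ => adj_skey E T (adj_edg hω.2.2.2.2.1 t), hω.2.2.2.2.2.2.2.1⟩
  refine Nat.card_le_card_of_injective
    (fun x => ⟨flip x.1.1 (flips E (D x.1.1) x.2), x.1.2.2⟩) ?_
  rintro ⟨⟨ω, hω, hP⟩, f⟩ ⟨⟨ω', hω', hP'⟩, f'⟩ hh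
  have hη : flip ω (flips E (D ω) f) = flip ω' (flips E (D ω') f') := Subtype.mk.inj hh
  have h1 : ∀ v, (ω v).1 = (ω' v).1 := by
    intro v
    have := congrArg Prod.fst (congrFun hη v)
    exact this
  have hDD : D ω = D ω' := by
    funext t
    exact congrFun (skey_eq (E := E) h1 T) (edg z t)
  obtain ⟨c, hc⟩ := hω.2.2.2.2.2.2.2.2
  obtain ⟨c', hc'⟩ := hω'.2.2.2.2.2.2.2.2
  have h2 : ∀ t, col E (flip ω (flips E (D ω) f)) T (edg z t) =
      col E (flip ω' (flips E (D ω') f')) T (edg z t) := fun t => by rw [hη]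
  have h3 : ∀ t, xor (col E ω T (edg z t)) (atD E (flips E (D ω) f) (D ω t)) =
      xor (col E ω' T (edg z t)) (atD E (flips E (D ω') f') (D ω' t)) := by
    intro t
    have := h2 t
    rw [col_flip, col_flip] at this
    exact this
  have hcc : c = c' := by
    have := h3 0
    rw [flips_zero E (hD ω hω).1 (hD ω hω).2, flips_zero E (hD ω' hω').1 (hD ω' hω').2,
      hc 0 (Nat.zero_le _), hc' 0 (Nat.zero_le _)] at this
    revert this
    generalize pat κ r 0 = a
    cases c <;> cases c' <;> cases a <;> simp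
  have hff : f = f' := by
    funext t
    have := h3 (t.1 + 1)
    rw [flips_at E (hD ω hω).1 (hD ω hω).2, flips_at E (hD ω' hω').1 (hD ω' hω').2,
      hc _ (by omega), hc' _ (by omega), hcc] at this
    revert this
    generalize xor c' (pat κ r (t.1 + 1)) = a
    generalize f t = b
    generalize f' t = b'
    cases a <;> cases b <;> cases b' <;> simp
  have hωω : ω = ω' := by
    funext v
    refine Prod.ext (h1 v) ?_
    funext s
    have h4 := congrFun (congrArg Prod.snd (congrFun hη v)) s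
    rw [hDD, hff] at h4
    simp only [Bit.flip] at h4
    revert h4
    generalize flips E (D ω') f' v s = a
    generalize (ω v).2 s = b
    generalize (ω' v).2 s = b'
    cases a <;> cases b <;> cases b' <;> simp
  subst hωω
  subst hff
  rfl

end Pool.Agent.LAG
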