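import Mathlib
import Pool.Agent.Helper76_LAG.Stmt

/-!
# LAG: module PRB (probability of the main event together with a trail)
-/

set_option autoImplicit false

namespace Pool.Agent.LAG

theorem prb (htau : TauStmt) (hbit : BitStmt) : PrbStmt := by
  classical
  intro V _ L T ℓ E n k z w r y κ hw
  by_cases hex : ∃ ω : V → St L, BEv E ω T ℓ z r y κ
  · obtain ⟨ω₀, h₀⟩ := hex
    have hC : IsC E.H (cyc z) (n + 1) := h₀.2.2.2.2.1
    have hry : r ≤ y := h₀.2.2.1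
    have hyn : y ≤ n := h₀.2.2.2.1
    let P : (V → Fin 3 × Fin L) → Prop := fun τ =>
      (∀ t, t ≤ n → (kx (τ (cyc z t)).1 (E.slot (cyc z t) (cyc z (t + n))) =
        E.slot (cyc z t) (cyc z (t + 1)) ↔ ¬ (t < r ∨ t = y))) ∧
      ∀ t, 0 < t → t < k → kx (τ (cyc w t)).1 (E.slot (cyc w t) (cyc w (t - 1))) =
        E.slot (cyc w t) (cyc w (t + 1))
    have h1 := htau V L E n k z w r y hw hC hry hyn
    have h2 := hbit V L T ℓ E n z r y κ P
    have h3 : Nat.card {ω : V → St L // BEv E ω T ℓ z r y κ ∧ Ev3 E ω (cyc w) k} ≤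
        Nat.card {ω : V → St L // BEv E ω T ℓ z r y κ ∧ P (fun v => (ω v).1)} := by
      refine Nat.card_le_card_of_injective (fun ω => ⟨ω.1, ω.2.1, ?_, ?_⟩) ?_
      · exact ω.2.1.2.2.2.2.2.1
      · exact ω.2.2
      · intro ω ω' h
        exact Subtype.ext (Subtype.mk.inj h)
    have h4 : 3 ^ (n + 1) * 3 ^ (k - 1) *
        Nat.card {ω : V → St L // P (fun v => (ω v).1)} ≤ 2 ^ (r + 1) * Nat.card (V → St L) := h1
    have hp : 0 < 2 ^ r := pow_pos (by norm_num) r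
    refine Nat.le_of_mul_le_mul_left ?_ hp
    calc 2 ^ r * (3 ^ (n + 1) * 3 ^ (k - 1) *
          Nat.card {ω : V → St L // BEv E ω T ℓ z r y κ ∧ Ev3 E ω (cyc w) k})
        = 3 ^ (n + 1) * 3 ^ (k - 1) * (2 ^ r *
          Nat.card {ω : V → St L // BEv E ω T ℓ z r y κ ∧ Ev3 E ω (cyc w) k}) := by ring
      _ ≤ 3 ^ (n + 1) * 3 ^ (k - 1) * (2 ^ r *
          Nat.card {ω : V → St L // BEv E ω T ℓ z r y κ ∧ P (fun v => (ω v).1)}) := by gcongr
      _ ≤ 3 ^ (n + 1) * 3 ^ (k - 1) * Nat.card {ω : V → St L // P (fun v => (ω v).1)} := by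
          gcongr
      _ ≤ 2 ^ (r + 1) * Nat.card (V → St L) := h4
      _ = 2 ^ r * (2 * Nat.card (V → St L)) := by ring
  · have : IsEmpty {ω : V → St L // BEv E ω T ℓ z r y κ ∧ Ev3 E ω (cyc w) k} :=
      ⟨fun ω => hex ⟨ω.1, ω.2.1⟩⟩
    simp

end Pool.Agent.LAG
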