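import Mathlib
import Pool.Agent.Helper76_LAG.Stmt

/-!
# LAG: module PRD (product formula)
-/

set_option autoImplicit false

namespace Pool.Agent.LAG

theorem prd : PrdStmt := by
  classical
  intro V α _ _ S P
  have h1 : Nat.card {ω : V → α // ∀ v ∈ S, P v (ω v)} =
      ∏ v : V, (if v ∈ S then (Finset.univ.filter (P v)).card else Fintype.card α) := by
    rw [Nat.card_eq_fintype_card, Fintype.card_subtype]
    have : (Finset.univ.filter (fun ω : V → α => ∀ v ∈ S, P v (ω v))) =
        Fintype.piFinset (fun v => if v ∈ S then Finset.univ.filter (P v) else Finset.univ) := by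
      ext ω
      simp only [Finset.mem_filter, Finset.mem_univ, true_and, Fintype.mem_piFinset]
      constructor
      · intro h v
        by_cases hv : v ∈ S
        · simp [hv, h v hv]
        · simp [hv]
      · intro h v hv
        have := h v
        simpa [hv] using this
    rw [this, Fintype.card_piFinset]
    refine Finset.prod_congr rfl fun v _ => ?_
    by_cases hv : v ∈ S <;> simp [hv]
  have h2 : (∏ v : V, (if v ∈ S then (Finset.univ.filter (P v)).card else Fintype.card α)) =
      (∏ v ∈ S, (Finset.univ.filter (P v)).card) * Fintype.card α ^ (Sᶜ).card := by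
    rw [← Finset.prod_mul_prod_compl S]
    congr 1
    · exact Finset.prod_congr rfl fun v hv => by simp [hv]
    · rw [Finset.prod_congr rfl (g := fun _ => Fintype.card α) (fun v hv => by
        simp [Finset.mem_compl.mp hv]), Finset.prod_const]
  have h3 : Nat.card (V → α) = Fintype.card α ^ S.card * Fintype.card α ^ (Sᶜ).card := by
    rw [Nat.card_eq_fintype_card, Fintype.card_fun, ← pow_add, Finset.card_add_card_compl]
  have h4 : ∀ v, Nat.card {a : α // P v a} = (Finset.univ.filter (P v)).card := by
    intro v
    rw [Nat.card_eq_fintype_card, Fintype.card_subtype]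
  rw [h1, h2, h3, Nat.card_eq_fintype_card (α := α)]
  simp only [h4]
  ring

end Pool.Agent.LAG
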