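import Mathlib
import Pool.Agent.Helper76_LAG.Stmt

/-!
# LAG: module SUMB (the main events which contain a given vertex in their support)
-/

set_option autoImplicit false

namespace Pool.Agent.LAG

namespace SumB

open Classical

variable {V : Type} [Fintype V]

/-- The number of vertices equal or adjacent to `x`. -/
lemma card_nb (E : Env V) (x : V) :
    (Finset.univ.filter (fun x' => x = x' ∨ E.H.Adj x x')).card ≤ 5 := by
  have h1 : (Finset.univ.filter (fun x' => x = x' ∨ E.H.Adj x x')) ⊆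
      insert x (Finset.univ.filter (fun x' => E.H.Adj x x')) := by
    intro a ha
    simp only [Finset.mem_filter, Finset.mem_univ, true_and] at ha
    simp only [Finset.mem_insert, Finset.mem_filter, Finset.mem_univ, true_and]
    rcases ha with ha | ha
    · exact Or.inl ha.symm
    · exact Or.inr ha
  have h2 : (Finset.univ.filter (fun x' => E.H.Adj x x')).card ≤ 4 := by
    have : (Finset.univ.filter (fun x' => E.H.Adj x x')).card ≤
        (Finset.univ : Finset (Fin 4)).card := by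
      refine Finset.card_le_card_of_injOn (fun u => E.slot x u) (fun _ _ => Finset.mem_univ _) ?_
      intro a ha b hb hab
      simp only [Finset.coe_filter, Finset.mem_univ, true_and, Set.mem_ofPred_eq] at ha hb
      exact E.slot_inj x a b ha hb hab
    simpa using this
  calc _ ≤ (insert x (Finset.univ.filter (fun x' => E.H.Adj x x'))).card :=
        Finset.card_le_card h1
    _ ≤ (Finset.univ.filter (fun x' => E.H.Adj x x')).card + 1 := Finset.card_insert_le _ _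
    _ ≤ 5 := by omega

/-- Number of paths `w` which end near `x`. -/
lemma count_w (hP : CntPStmt) (E : Env V) (k : ℕ) (x : V) :
    9 * (Finset.univ.filter (fun w : Fin (k + 1) → V =>
      IsP E.H (cyc w) k ∧ (x = cyc w k ∨ E.H.Adj x (cyc w k)))).card ≤ 80 * 3 ^ k := by
  have h1 : (Finset.univ.filter (fun w : Fin (k + 1) → V =>
      IsP E.H (cyc w) k ∧ (x = cyc w k ∨ E.H.Adj x (cyc w k)))) ⊆
      (Finset.univ.filter (fun x' => x = x' ∨ E.H.Adj x x')).biUnion (fun x' =>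
        Finset.univ.filter (fun w : Fin (k + 1) → V => IsP E.H (cyc w) k ∧ cyc w k = x')) := by
    intro w hw
    simp only [Finset.mem_filter, Finset.mem_univ, true_and] at hw
    simp only [Finset.mem_biUnion, Finset.mem_filter, Finset.mem_univ, true_and]
    exact ⟨cyc w k, hw.2, hw.1, rfl⟩
  have h2 : ∀ x', 9 * (Finset.univ.filter (fun w : Fin (k + 1) → V =>
      IsP E.H (cyc w) k ∧ cyc w k = x')).card ≤ 16 * 3 ^ k := by
    intro x'
    have := hP V E k k x' le_rfl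
    rwa [Nat.card_eq_fintype_card, Fintype.card_subtype] at this
  calc 9 * (Finset.univ.filter (fun w : Fin (k + 1) → V =>
      IsP E.H (cyc w) k ∧ (x = cyc w k ∨ E.H.Adj x (cyc w k)))).card
      ≤ 9 * ∑ x' ∈ (Finset.univ.filter (fun x' => x = x' ∨ E.H.Adj x x')),
        (Finset.univ.filter (fun w : Fin (k + 1) → V =>
          IsP E.H (cyc w) k ∧ cyc w k = x')).card :=
        Nat.mul_le_mul_left _ ((Finset.card_le_card h1).trans Finset.card_biUnion_le)
    _ = ∑ x' ∈ (Finset.univ.filter (fun x' => x = x' ∨ E.H.Adj x x')),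
        9 * (Finset.univ.filter (fun w : Fin (k + 1) → V =>
          IsP E.H (cyc w) k ∧ cyc w k = x')).card := by rw [Finset.mul_sum]
    _ ≤ ∑ x' ∈ (Finset.univ.filter (fun x' => x = x' ∨ E.H.Adj x x')), 16 * 3 ^ k :=
        Finset.sum_le_sum fun x' _ => h2 x'
    _ = (Finset.univ.filter (fun x' => x = x' ∨ E.H.Adj x x')).card * (16 * 3 ^ k) := by
        rw [Finset.sum_const, smul_eq_mul]
    _ ≤ 5 * (16 * 3 ^ k) := Nat.mul_le_mul_right _ (card_nb E x)
    _ = 80 * 3 ^ k := by ring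

/-- Number of cycles `z` through `u`. -/
lemma count_z (hC : CntCStmt) (G : SimpleGraph V) (h : ℕ) (E : Env V) (hB : Big G (2 * h))
    (hHG : E.H ≤ G) (n : ℕ) (u : V) :
    3 ^ (h + 1) * (Finset.univ.filter (fun z : Fin (n + 1) → V =>
      IsC E.H (cyc z) (n + 1) ∧ ∃ p, p ≤ n ∧ u = cyc z p)).card ≤
      (n + 1) * (4 * 3 ^ (n + 1)) := by
  have h1 : (Finset.univ.filter (fun z : Fin (n + 1) → V =>
      IsC E.H (cyc z) (n + 1) ∧ ∃ p, p ≤ n ∧ u = cyc z p)) ⊆
      (Finset.range (n + 1)).biUnion (fun p =>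
        Finset.univ.filter (fun z : Fin (n + 1) → V =>
          IsC E.H (cyc z) (n + 1) ∧ cyc z p = u)) := by
    intro z hz
    simp only [Finset.mem_filter, Finset.mem_univ, true_and] at hz
    obtain ⟨hz, p, hp, hpu⟩ := hz
    simp only [Finset.mem_biUnion, Finset.mem_filter, Finset.mem_univ, true_and,
      Finset.mem_range]
    exact ⟨p, by omega, hz, hpu.symm⟩
  have h2 : ∀ p ∈ Finset.range (n + 1), 3 ^ (h + 1) *
      (Finset.univ.filter (fun z : Fin (n + 1) → V =>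
      IsC E.H (cyc z) (n + 1) ∧ cyc z p = u)).card ≤ 4 * 3 ^ (n + 1) := by
    intro p hp
    have := hC V G h E hB hHG n p u (by simpa [Nat.lt_succ_iff] using hp)
    rwa [Nat.card_eq_fintype_card, Fintype.card_subtype] at this
  calc _ ≤ 3 ^ (h + 1) * ∑ p ∈ Finset.range (n + 1),
        (Finset.univ.filter (fun z : Fin (n + 1) → V =>
          IsC E.H (cyc z) (n + 1) ∧ cyc z p = u)).card :=
        Nat.mul_le_mul_left _ ((Finset.card_le_card h1).trans Finset.card_biUnion_le)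
    _ = ∑ p ∈ Finset.range (n + 1), 3 ^ (h + 1) *
        (Finset.univ.filter (fun z : Fin (n + 1) → V =>
          IsC E.H (cyc z) (n + 1) ∧ cyc z p = u)).card := by rw [Finset.mul_sum]
    _ ≤ ∑ p ∈ Finset.range (n + 1), 4 * 3 ^ (n + 1) := Finset.sum_le_sum h2
    _ = (n + 1) * (4 * 3 ^ (n + 1)) := by
        rw [Finset.sum_const, Finset.card_range, smul_eq_mul]

/-- Number of pairs `z`, `w`. -/
lemma count_pairs (hP : CntPStmt) (hC : CntCStmt) (G : SimpleGraph V) (h : ℕ) (E : Env V)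
    (hB : Big G (2 * h)) (hHG : E.H ≤ G) (n k : ℕ) (x : V) :
    27 * 3 ^ h * ∑ z : Fin (n + 1) → V, ∑ w : Fin (k + 1) → V,
      (if IsC E.H (cyc z) (n + 1) ∧ IsW E z w ∧ (x = cyc w k ∨ E.H.Adj x (cyc w k)) then 1 else 0)
      ≤ 320 * 3 ^ k * (n + 1) * 3 ^ (n + 1) := by
  rw [Finset.sum_comm]
  have h1 : ∀ w : Fin (k + 1) → V, 3 ^ (h + 1) * (∑ z : Fin (n + 1) → V,
      (if IsC E.H (cyc z) (n + 1) ∧ IsW E z w ∧ (x = cyc w k ∨ E.H.Adj x (cyc w k))
        then 1 else 0)) ≤ (if IsP E.H (cyc w) k ∧ (x = cyc w k ∨ E.H.Adj x (cyc w k)) then 1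
        else 0) * ((n + 1) * (4 * 3 ^ (n + 1))) := by
    intro w
    by_cases hw : IsP E.H (cyc w) k ∧ (x = cyc w k ∨ E.H.Adj x (cyc w k))
    · rw [if_pos hw, one_mul]
      refine le_trans (Nat.mul_le_mul_left _ ?_) (count_z hC G h E hB hHG n (cyc w 0))
      rw [Finset.card_filter]
      refine Finset.sum_le_sum fun z _ => ?_
      by_cases hz : IsC E.H (cyc z) (n + 1) ∧ IsW E z w ∧ (x = cyc w k ∨ E.H.Adj x (cyc w k))
      · rw [if_pos hz, if_pos ⟨hz.1, hz.2.1.2.1⟩]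
      · rw [if_neg hz]
        exact Nat.zero_le _
    · have h2 : (∑ z : Fin (n + 1) → V,
          (if IsC E.H (cyc z) (n + 1) ∧ IsW E z w ∧ (x = cyc w k ∨ E.H.Adj x (cyc w k))
          then 1 else 0)) = 0 := by
        refine Finset.sum_eq_zero fun z _ => ?_
        rw [if_neg]
        rintro ⟨-, h3, h4⟩
        exact hw ⟨h3.1, h4⟩
      rw [h2]
      simp
  calc 27 * 3 ^ h * ∑ w : Fin (k + 1) → V, ∑ z : Fin (n + 1) → V,
      (if IsC E.H (cyc z) (n + 1) ∧ IsW E z w ∧ (x = cyc w k ∨ E.H.Adj x (cyc w k)) then 1 else 0)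
      = 9 * ∑ w : Fin (k + 1) → V, 3 ^ (h + 1) * ∑ z : Fin (n + 1) → V,
      (if IsC E.H (cyc z) (n + 1) ∧ IsW E z w ∧ (x = cyc w k ∨ E.H.Adj x (cyc w k))
        then 1 else 0) := by
        rw [← Finset.mul_sum]
        ring
    _ ≤ 9 * ∑ w : Fin (k + 1) → V, (if IsP E.H (cyc w) k ∧
        (x = cyc w k ∨ E.H.Adj x (cyc w k)) then 1 else 0) * ((n + 1) * (4 * 3 ^ (n + 1))) :=
        Nat.mul_le_mul_left _ (Finset.sum_le_sum fun w _ => h1 w)
    _ = (9 * (Finset.univ.filter (fun w : Fin (k + 1) → V =>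
          IsP E.H (cyc w) k ∧ (x = cyc w k ∨ E.H.Adj x (cyc w k)))).card) *
          ((n + 1) * (4 * 3 ^ (n + 1))) := by
        rw [← Finset.sum_mul, Finset.card_filter]
        ring
    _ ≤ (80 * 3 ^ k) * ((n + 1) * (4 * 3 ^ (n + 1))) :=
        Nat.mul_le_mul_right _ (count_w hP E k x)
    _ = 320 * 3 ^ k * (n + 1) * 3 ^ (n + 1) := by ring

/-- The contribution of trails of length `k`. -/
noncomputable def A (L T ℓ : ℕ) (E : Env V) (x : V) (n k r y : ℕ) (κ : Bool × Bool) : ℕ :=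
  ∑ z : Fin (n + 1) → V, ∑ w : Fin (k + 1) → V,
    (if IsW E z w ∧ (x = cyc w k ∨ E.H.Adj x (cyc w k)) then
      Nat.card {ω : V → St L // BEv E ω T ℓ z r y κ ∧ Ev3 E ω (cyc w) k} else 0)

lemma bound_A (hP : CntPStmt) (hC : CntCStmt) (hprb : PrbStmt) (L T ℓ : ℕ)
    (G : SimpleGraph V) (h : ℕ) (E : Env V)
    (hB : Big G (2 * h)) (hHG : E.H ≤ G) (n k : ℕ) (x : V) (r y : ℕ) (κ : Bool × Bool) :
    27 * 3 ^ h * 3 ^ (k - 1) * A L T ℓ E x n k r y κ ≤
      640 * 3 ^ k * (n + 1) * Nat.card (V → St L) := by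
  have h1 : 3 ^ (n + 1) * 3 ^ (k - 1) * A L T ℓ E x n k r y κ ≤
      (∑ z : Fin (n + 1) → V, ∑ w : Fin (k + 1) → V,
      (if IsC E.H (cyc z) (n + 1) ∧ IsW E z w ∧ (x = cyc w k ∨ E.H.Adj x (cyc w k))
        then 1 else 0)) * (2 * Nat.card (V → St L)) := by
    unfold A
    rw [Finset.mul_sum, Finset.sum_mul]
    refine Finset.sum_le_sum fun z _ => ?_
    rw [Finset.mul_sum, Finset.sum_mul]
    refine Finset.sum_le_sum fun w _ => ?_
    by_cases hw : IsW E z w ∧ (x = cyc w k ∨ E.H.Adj x (cyc w k))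
    · rw [if_pos hw]
      by_cases hz : IsC E.H (cyc z) (n + 1)
      · rw [if_pos ⟨hz, hw⟩, one_mul]
        exact hprb V L T ℓ E n k z w r y κ hw.1
      · have : IsEmpty {ω : V → St L // BEv E ω T ℓ z r y κ ∧ Ev3 E ω (cyc w) k} :=
          ⟨fun ω => hz ω.2.1.2.2.2.2.1⟩
        simp
    · rw [if_neg hw, mul_zero]
      exact Nat.zero_le _
  have h2 := count_pairs hP hC G h E hB hHG n k x
  have hp : 0 < 3 ^ (n + 1) := pow_pos (by norm_num) _
  refine Nat.le_of_mul_le_mul_left ?_ hp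
  calc 3 ^ (n + 1) * (27 * 3 ^ h * 3 ^ (k - 1) * A L T ℓ E x n k r y κ)
      = 27 * 3 ^ h * (3 ^ (n + 1) * 3 ^ (k - 1) * A L T ℓ E x n k r y κ) := by ring
    _ ≤ 27 * 3 ^ h * ((∑ z : Fin (n + 1) → V, ∑ w : Fin (k + 1) → V,
      (if IsC E.H (cyc z) (n + 1) ∧ IsW E z w ∧ (x = cyc w k ∨ E.H.Adj x (cyc w k))
        then 1 else 0)) * (2 * Nat.card (V → St L))) := Nat.mul_le_mul_left _ h1
    _ = (27 * 3 ^ h * (∑ z : Fin (n + 1) → V, ∑ w : Fin (k + 1) → V,
      (if IsC E.H (cyc z) (n + 1) ∧ IsW E z w ∧ (x = cyc w k ∨ E.H.Adj x (cyc w k))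
        then 1 else 0))) * (2 * Nat.card (V → St L)) := by ring
    _ ≤ (320 * 3 ^ k * (n + 1) * 3 ^ (n + 1)) * (2 * Nat.card (V → St L)) :=
        Nat.mul_le_mul_right _ h2
    _ = 3 ^ (n + 1) * (640 * 3 ^ k * (n + 1) * Nat.card (V → St L)) := by ring

lemma bound_zero (hP : CntPStmt) (hC : CntCStmt) (hprb : PrbStmt) (L T ℓ : ℕ)
    (G : SimpleGraph V) (h : ℕ) (E : Env V)
    (hB : Big G (2 * h)) (hHG : E.H ≤ G) (n : ℕ) (x : V) (r y : ℕ) (κ : Bool × Bool) :
    27 * 3 ^ h * A L T ℓ E x n 0 r y κ ≤ 640 * (n + 1) * Nat.card (V → St L) := by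
  have := bound_A hP hC hprb L T ℓ G h E hB hHG n 0 x r y κ
  simpa using this

lemma bound_succ (hP : CntPStmt) (hC : CntCStmt) (hprb : PrbStmt) (L T ℓ : ℕ)
    (G : SimpleGraph V) (h : ℕ) (E : Env V)
    (hB : Big G (2 * h)) (hHG : E.H ≤ G) (n k : ℕ) (x : V) (r y : ℕ) (κ : Bool × Bool) :
    27 * 3 ^ h * A L T ℓ E x n (k + 1) r y κ ≤ 1920 * (n + 1) * Nat.card (V → St L) := by
  have := bound_A hP hC hprb L T ℓ G h E hB hHG n (k + 1) x r y κ
  rw [Nat.add_sub_cancel] at this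
  have hp : 0 < 3 ^ k := pow_pos (by norm_num) _
  refine Nat.le_of_mul_le_mul_left ?_ hp
  calc 3 ^ k * (27 * 3 ^ h * A L T ℓ E x n (k + 1) r y κ)
      = 27 * 3 ^ h * 3 ^ k * A L T ℓ E x n (k + 1) r y κ := by ring
    _ ≤ 640 * 3 ^ (k + 1) * (n + 1) * Nat.card (V → St L) := this
    _ = 3 ^ k * (1920 * (n + 1) * Nat.card (V → St L)) := by ring

/-- All trails. -/
lemma bound_sum (hP : CntPStmt) (hC : CntCStmt) (hprb : PrbStmt) (L T ℓ : ℕ) (hT : 1 ≤ T)
    (G : SimpleGraph V) (h : ℕ) (E : Env V)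
    (hB : Big G (2 * h)) (hHG : E.H ≤ G) (n : ℕ) (x : V) (r y : ℕ) (κ : Bool × Bool) :
    27 * 3 ^ h * ∑ k ∈ Finset.range (T + 1), A L T ℓ E x n k r y κ ≤
      2560 * T * (n + 1) * Nat.card (V → St L) := by
  rw [Finset.sum_range_succ', mul_add, Finset.mul_sum]
  have h1 : ∑ k ∈ Finset.range T, 27 * 3 ^ h * A L T ℓ E x n (k + 1) r y κ ≤
      T * (1920 * (n + 1) * Nat.card (V → St L)) := by
    refine (Finset.sum_le_sum fun k _ =>
      bound_succ hP hC hprb L T ℓ G h E hB hHG n k x r y κ).trans ?_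
    rw [Finset.sum_const, Finset.card_range, smul_eq_mul]
  have h2 := bound_zero hP hC hprb L T ℓ G h E hB hHG n x r y κ
  have h3 : 640 * (n + 1) * Nat.card (V → St L) ≤ T * (640 * (n + 1) * Nat.card (V → St L)) :=
    Nat.le_mul_of_pos_left _ hT
  calc _ ≤ T * (1920 * (n + 1) * Nat.card (V → St L)) +
        T * (640 * (n + 1) * Nat.card (V → St L)) := Nat.add_le_add h1 (h2.trans h3)
    _ = _ := by ring

/-- The events with fixed `n`, `r`, `y`, `κ`. -/
lemma cover (hR : RchStmt) (L T ℓ : ℕ) (E : Env V) (n : ℕ) (x : V) (r y : ℕ)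
    (κ : Bool × Bool) :
    ∑ z : Fin (n + 1) → V,
      Nat.card {ω : V → St L // BEv E ω T ℓ z r y κ ∧ x ∈ Supp E ω T z r} ≤
      ∑ k ∈ Finset.range (T + 1), A L T ℓ E x n k r y κ := by
  unfold A
  rw [Finset.sum_comm]
  refine Finset.sum_le_sum fun z _ => ?_
  have h1 : (Finset.univ.filter (fun ω : V → St L =>
      BEv E ω T ℓ z r y κ ∧ x ∈ Supp E ω T z r)) ⊆
      (Finset.range (T + 1)).biUnion (fun k =>
        (Finset.univ.filter (fun w : Fin (k + 1) → V =>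
          IsW E z w ∧ (x = cyc w k ∨ E.H.Adj x (cyc w k)))).biUnion (fun w =>
          Finset.univ.filter (fun ω : V → St L =>
            BEv E ω T ℓ z r y κ ∧ Ev3 E ω (cyc w) k))) := by
    intro ω hω
    simp only [Finset.mem_filter, Finset.mem_univ, true_and] at hω
    obtain ⟨x', hx', k, hk, w, hw, hwk, h3⟩ := hR V L T ℓ E ω n z r y κ hω.1 x hω.2
    simp only [Finset.mem_biUnion, Finset.mem_filter, Finset.mem_univ, true_and,
      Finset.mem_range]
    refine ⟨k, by omega, w, ⟨hw, ?_⟩, hω.1, h3⟩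
    rw [hwk]
    exact hx'
  have h2 : Nat.card {ω : V → St L // BEv E ω T ℓ z r y κ ∧ x ∈ Supp E ω T z r} =
      (Finset.univ.filter (fun ω : V → St L =>
        BEv E ω T ℓ z r y κ ∧ x ∈ Supp E ω T z r)).card := by
    rw [Nat.card_eq_fintype_card, Fintype.card_subtype]
  rw [h2]
  refine (Finset.card_le_card h1).trans (Finset.card_biUnion_le.trans ?_)
  refine Finset.sum_le_sum fun k _ => ?_
  refine Finset.card_biUnion_le.trans ?_
  rw [Finset.sum_filter]
  refine Finset.sum_le_sum fun w _ => ?_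
  by_cases hw : IsW E z w ∧ (x = cyc w k ∨ E.H.Adj x (cyc w k))
  · rw [if_pos hw, if_pos hw, Nat.card_eq_fintype_card, Fintype.card_subtype]
  · rw [if_neg hw, if_neg hw]

/-- Fixed `n`, `r`, `y`, `κ`. -/
lemma fixed (hP : CntPStmt) (hC : CntCStmt) (hR : RchStmt) (hprb : PrbStmt) (L T ℓ : ℕ)
    (hT : 1 ≤ T) (G : SimpleGraph V) (h : ℕ) (E : Env V)
    (hB : Big G (2 * h)) (hHG : E.H ≤ G) (n : ℕ) (x : V) (r y : ℕ) (κ : Bool × Bool) :
    27 * 3 ^ h * (∑ z : Fin (n + 1) → V,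
      Nat.card {ω : V → St L // BEv E ω T ℓ z r y κ ∧ x ∈ Supp E ω T z r}) ≤
      (if 1 ≤ r ∧ r ≤ ℓ then 1 else 0) * (2560 * T * (n + 1) * Nat.card (V → St L)) := by
  by_cases hr : 1 ≤ r ∧ r ≤ ℓ
  · rw [if_pos hr, one_mul]
    exact (Nat.mul_le_mul_left _ (cover hR L T ℓ E n x r y κ)).trans
      (bound_sum hP hC hprb L T ℓ hT G h E hB hHG n x r y κ)
  · have h1 : (∑ z : Fin (n + 1) → V,
        Nat.card {ω : V → St L // BEv E ω T ℓ z r y κ ∧ x ∈ Supp E ω T z r}) = 0 := by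
      refine Finset.sum_eq_zero fun z _ => ?_
      have : IsEmpty {ω : V → St L // BEv E ω T ℓ z r y κ ∧ x ∈ Supp E ω T z r} :=
        ⟨fun ω => hr ⟨ω.2.1.1, ω.2.1.2.1⟩⟩
      simp
    rw [h1]
    simp

end SumB

open SumB in
theorem sumB (hP : CntPStmt) (hC : CntCStmt) (hR : RchStmt) (hprb : PrbStmt) : SumBStmt := by
  classical
  intro V _ L T ℓ h G E hT hB hHG x
  set N := 2 * T + ℓ with hN
  have hmain : ∀ n : Fin N, 27 * 3 ^ h * (∑ i : ((Fin (n.1 + 1) → V) × Fin (n.1 + 1) ×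
      Fin (n.1 + 1) × (Bool × Bool)), Nat.card {ω : V → St L //
        BEv E ω T ℓ i.1 i.2.1 i.2.2.1 i.2.2.2 ∧ x ∈ Supp E ω T i.1 i.2.1}) ≤
      10240 * ℓ * T * N ^ 2 * Nat.card (V → St L) := by
    intro n
    rw [Fintype.sum_prod_type, Finset.sum_comm, Finset.mul_sum]
    have h1 : ∀ q : Fin (n.1 + 1) × Fin (n.1 + 1) × (Bool × Bool),
        27 * 3 ^ h * (∑ z : Fin (n.1 + 1) → V, Nat.card {ω : V → St L //
          BEv E ω T ℓ z q.1 q.2.1 q.2.2 ∧ x ∈ Supp E ω T z q.1}) ≤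
        (if 1 ≤ q.1.1 ∧ q.1.1 ≤ ℓ then 1 else 0) *
          (2560 * T * (n.1 + 1) * Nat.card (V → St L)) :=
      fun q => fixed hP hC hR hprb L T ℓ hT G h E hB hHG n.1 x q.1.1 q.2.1.1 q.2.2
    refine (Finset.sum_le_sum fun q _ => h1 q).trans ?_
    rw [← Finset.sum_mul]
    have h2 : (∑ q : Fin (n.1 + 1) × Fin (n.1 + 1) × (Bool × Bool),
        (if 1 ≤ q.1.1 ∧ q.1.1 ≤ ℓ then 1 else 0)) ≤ (n.1 + 1) * 4 * ℓ := by
      rw [← Finset.card_filter]
      have h4 : (Finset.univ.filter (fun q : Fin (n.1 + 1) × Fin (n.1 + 1) × (Bool × Bool) =>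
          1 ≤ q.1.1 ∧ q.1.1 ≤ ℓ)).card ≤
          ((Finset.Icc 1 ℓ) ×ˢ
            (Finset.univ : Finset (Fin (n.1 + 1) × (Bool × Bool)))).card := by
        refine Finset.card_le_card_of_injOn (fun q => (q.1.1, q.2)) ?_ ?_
        · intro q hq
          simp only [Finset.coe_filter, Finset.mem_univ, true_and, Set.mem_ofPred_eq] at hq
          simp only [Finset.coe_product, Finset.coe_Icc, Finset.coe_univ, Set.mem_prod,
            Set.mem_Icc, Set.mem_univ, and_true]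
          exact hq
        · rintro ⟨a, b⟩ _ ⟨a', b'⟩ _ hab
          simp only [Prod.mk.injEq] at hab
          rw [Fin.ext hab.1, hab.2]
      rw [Finset.card_product] at h4
      simp only [Nat.card_Icc, Finset.card_univ, Fintype.card_prod, Fintype.card_fin,
        Fintype.card_bool, Nat.add_sub_cancel] at h4
      refine h4.trans_eq ?_
      ring
    have h3 : n.1 + 1 ≤ N := n.2
    calc _ ≤ ((n.1 + 1) * 4 * ℓ) * (2560 * T * (n.1 + 1) * Nat.card (V → St L)) :=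
          Nat.mul_le_mul_right _ h2
      _ = 10240 * ℓ * T * (n.1 + 1) ^ 2 * Nat.card (V → St L) := by ring
      _ ≤ 10240 * ℓ * T * N ^ 2 * Nat.card (V → St L) := by gcongr
  have htot : 27 * (3 ^ h * ∑ i : BIdx V N, Nat.card {ω : V → St L //
        BEv E ω T ℓ i.2.1 i.2.2.1 i.2.2.2.1 i.2.2.2.2 ∧ x ∈ Supp E ω T i.2.1 i.2.2.1}) ≤
      10240 * ℓ * T * N ^ 3 * Nat.card (V → St L) := by
    rw [Fintype.sum_sigma]
    calc _ = ∑ n : Fin N, 27 * 3 ^ h * (∑ i : ((Fin (n.1 + 1) → V) × Fin (n.1 + 1) ×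
      Fin (n.1 + 1) × (Bool × Bool)), Nat.card {ω : V → St L //
        BEv E ω T ℓ i.1 i.2.1 i.2.2.1 i.2.2.2 ∧ x ∈ Supp E ω T i.1 i.2.1}) := by
          rw [← Finset.mul_sum]
          ring
      _ ≤ ∑ n : Fin N, 10240 * ℓ * T * N ^ 2 * Nat.card (V → St L) :=
          Finset.sum_le_sum fun n _ => hmain n
      _ = 10240 * ℓ * T * N ^ 3 * Nat.card (V → St L) := by
          rw [Finset.sum_const, Finset.card_univ, Fintype.card_fin, smul_eq_mul]
          ring
  have h27 : 10240 * ℓ * T * N ^ 3 * Nat.card (V → St L) ≤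
      27 * (400 * ℓ * T * N ^ 3 * Nat.card (V → St L)) := by
    have e1 : 10240 * ℓ * T * N ^ 3 * Nat.card (V → St L) =
        10240 * (ℓ * T * N ^ 3 * Nat.card (V → St L)) := by ring
    have e2 : 27 * (400 * ℓ * T * N ^ 3 * Nat.card (V → St L)) =
        10800 * (ℓ * T * N ^ 3 * Nat.card (V → St L)) := by ring
    rw [e1, e2]
    exact Nat.mul_le_mul_right _ (by norm_num)
  exact Nat.le_of_mul_le_mul_left (htot.trans h27) (by norm_num)

end Pool.Agent.LAG
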