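import Mathlib
import Pool.Agent.Helper76_LAG.Stmt

/-!
# LAG: module TAU (probability of the conditions for the pairings)
-/

set_option autoImplicit false

namespace Pool.Agent.LAG

namespace Tau

variable {V : Type}

lemma cyc_add {n : ℕ} (z : Fin (n + 1) → V) (t : ℕ) : cyc z (t + (n + 1)) = cyc z t := by
  unfold cyc
  congr 1
  ext
  simp [Fin.ofNat]

lemma cyc_mod {n : ℕ} (z : Fin (n + 1) → V) (t : ℕ) : cyc z (t % (n + 1)) = cyc z t := by
  unfold cyc
  congr 1
  ext
  simp [Fin.ofNat]

lemma adj_cyc {n : ℕ} {G : SimpleGraph V} {z : Fin (n + 1) → V} (hz : IsC G (cyc z) (n + 1))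
    (t : ℕ) : G.Adj (cyc z t) (cyc z (t + 1)) := by
  have h1 := hz.2.1 (t % (n + 1)) (Nat.mod_lt _ (Nat.succ_pos _))
  rw [cyc_mod] at h1
  have h2 : cyc z (t % (n + 1) + 1) = cyc z (t + 1) := by
    rw [← cyc_mod z (t % (n + 1) + 1), ← cyc_mod z (t + 1), Nat.mod_add_mod]
  rwa [h2] at h1

lemma adj_cyc' {n : ℕ} {G : SimpleGraph V} {z : Fin (n + 1) → V} (hz : IsC G (cyc z) (n + 1))
    (t : ℕ) : G.Adj (cyc z t) (cyc z (t + n)) := by
  have h1 := adj_cyc hz (t + n)
  have h2 : cyc z (t + n + 1) = cyc z t := cyc_add z t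
  rw [h2] at h1
  exact h1.symm

lemma cyc_inj {n : ℕ} {G : SimpleGraph V} {z : Fin (n + 1) → V} (hz : IsC G (cyc z) (n + 1))
    {s t : ℕ} (h : cyc z s = cyc z t) : s % (n + 1) = t % (n + 1) := by
  rw [← cyc_mod z s, ← cyc_mod z t] at h
  exact hz.2.2.2 _ _ (Nat.mod_lt _ (Nat.succ_pos _)) (Nat.mod_lt _ (Nat.succ_pos _)) h

lemma slot_cyc {n : ℕ} (E : Env V) {z : Fin (n + 1) → V} (hz : IsC E.H (cyc z) (n + 1))
    (t : ℕ) : E.slot (cyc z t) (cyc z (t + n)) ≠ E.slot (cyc z t) (cyc z (t + 1)) := by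
  intro h
  have h1 := E.slot_inj _ _ _ (adj_cyc' hz t) (adj_cyc hz t) h
  have h2 := cyc_inj hz h1
  have h3 := hz.1
  have h4 : (t + n) ≡ (t + 1) [MOD (n + 1)] := h2
  have h5 : n ≡ 1 [MOD (n + 1)] := Nat.ModEq.add_left_cancel' t h4
  have h6 : n % (n + 1) = 1 % (n + 1) := h5
  rw [Nat.mod_eq_of_lt (by omega), Nat.mod_eq_of_lt (by omega)] at h6
  omega

lemma card_fst (L : ℕ) (p : Fin 3 → Prop) [DecidablePred p] :
    Nat.card {a : St L // p a.1.1} = (Finset.univ.filter p).card * (L * 16) := by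
  classical
  rw [Nat.card_eq_fintype_card, Fintype.card_subtype]
  have h : (Finset.univ.filter (fun a : St L => p a.1.1)) =
      ((Finset.univ.filter p) ×ˢ (Finset.univ : Finset (Fin L))) ×ˢ
        (Finset.univ : Finset (Fin 4 → Bool)) := by
    ext a
    simp
  rw [h, Finset.card_product, Finset.card_product]
  simp
  ring

lemma card_st (L : ℕ) : Nat.card (St L) = 3 * (L * 16) := by
  rw [Nat.card_eq_fintype_card]
  simp
  ring

lemma card_eq (L : ℕ) (s s' : Fin 4) (h : s ≠ s') :
    3 * Nat.card {a : St L // kx a.1.1 s = s'} = 1 * Nat.card (St L) := by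
  rw [card_fst L (fun t => kx t s = s'), card_st]
  have : ∀ s s' : Fin 4, s ≠ s' →
      (Finset.univ.filter (fun t : Fin 3 => kx t s = s')).card = 1 := by decide
  rw [this s s' h]
  ring

lemma card_ne (L : ℕ) (s s' : Fin 4) (h : s ≠ s') :
    3 * Nat.card {a : St L // ¬ kx a.1.1 s = s'} = 2 * Nat.card (St L) := by
  rw [card_fst L (fun t => ¬ kx t s = s'), card_st]
  have : ∀ s s' : Fin 4, s ≠ s' →
      (Finset.univ.filter (fun t : Fin 3 => ¬ kx t s = s')).card = 2 := by decide
  rw [this s s' h]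
  ring

/-- A family of constraints at distinct vertices. -/
lemma family (hprd : PrdStmt) [Fintype V] (L : ℕ) (ι : Type) [Fintype ι] (x : ι → V)
    (hx : Function.Injective x) (Q : ι → St L → Prop) (c : ι → ℕ)
    (hc : ∀ i, 3 * Nat.card {a : St L // Q i a} = c i * Nat.card (St L)) :
    3 ^ Fintype.card ι * Nat.card {ω : V → St L // ∀ i, Q i (ω (x i))} ≤
      (∏ i, c i) * Nat.card (V → St L) := by
  classical
  have h0 := hprd V (St L) (Finset.univ.image x) (fun v a => ∀ i, x i = v → Q i a)
  have h1 : Nat.card {ω : V → St L // ∀ v ∈ Finset.univ.image x, ∀ i, x i = v → Q i (ω v)} =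
      Nat.card {ω : V → St L // ∀ i, Q i (ω (x i))} := by
    congr 1
    congr 1
    ext ω
    constructor
    · intro h i
      exact h (x i) (Finset.mem_image_of_mem _ (Finset.mem_univ _)) i rfl
    · rintro h v - i rfl
      exact h i
  have h2 : (∏ v ∈ Finset.univ.image x, Nat.card {a : St L // ∀ i, x i = v → Q i a}) =
      ∏ i, Nat.card {a : St L // Q i a} := by
    rw [Finset.prod_image (fun i _ j _ h => hx h)]
    refine Finset.prod_congr rfl fun i _ => ?_
    congr 1
    congr 1
    ext a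
    constructor
    · intro h
      exact h i rfl
    · intro h j hj
      rw [hx hj]
      exact h
  have h3 : (Finset.univ.image x).card = Fintype.card ι := by
    rw [Finset.card_image_of_injective _ hx]
    rfl
  rw [h1, h2, h3] at h0
  rcases Nat.eq_zero_or_pos (Nat.card (St L)) with hL | hL
  · -- the state space is empty
    rcases isEmpty_or_nonempty ι with hι | ⟨⟨i⟩⟩
    · simp [Fintype.card_eq_zero]
    · have : IsEmpty (St L) := by
        rw [Nat.card_eq_fintype_card] at hL
        exact Fintype.card_eq_zero_iff.mp hL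
      have : IsEmpty {ω : V → St L // ∀ i, Q i (ω (x i))} :=
        ⟨fun ω => isEmptyElim (ω.1 (x i))⟩
      simp
  · have h4 : 3 ^ Fintype.card ι * (∏ i, Nat.card {a : St L // Q i a}) =
        (∏ i, c i) * Nat.card (St L) ^ Fintype.card ι := by
      have e1 : (3 : ℕ) ^ Fintype.card ι = ∏ _i : ι, 3 := by
        rw [Finset.prod_const]; rfl
      have e2 : Nat.card (St L) ^ Fintype.card ι = ∏ _i : ι, Nat.card (St L) := by
        rw [Finset.prod_const]; rfl
      rw [e1, e2, ← Finset.prod_mul_distrib, ← Finset.prod_mul_distrib]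
      exact Finset.prod_congr rfl fun i _ => hc i
    have h5 : 3 ^ Fintype.card ι * Nat.card {ω : V → St L // ∀ i, Q i (ω (x i))} *
        Nat.card (St L) ^ Fintype.card ι =
        ((∏ i, c i) * Nat.card (V → St L)) * Nat.card (St L) ^ Fintype.card ι := by
      calc _ = 3 ^ Fintype.card ι * (Nat.card {ω : V → St L // ∀ i, Q i (ω (x i))} *
            Nat.card (St L) ^ Fintype.card ι) := by ring
        _ = (3 ^ Fintype.card ι * (∏ i, Nat.card {a : St L // Q i a})) *
            Nat.card (V → St L) := by rw [h0]; ring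
        _ = _ := by rw [h4]; ring
    exact (Nat.eq_of_mul_eq_mul_right (pow_pos hL _) h5).le

end Tau

open Tau in
theorem tau (hprd : PrdStmt) : TauStmt := by
  classical
  intro V _ L E n k z w r y hw hz hry hyn
  let x : Fin (n + 1) ⊕ Fin (k - 1) → V :=
    Sum.elim (fun t => cyc z t.1) (fun i => cyc w (i.1 + 1))
  let tp : ℕ → Prop := fun t => t < r ∨ t = y
  let Q : Fin (n + 1) ⊕ Fin (k - 1) → St L → Prop :=
    Sum.elim (fun t a => (kx a.1.1 (E.slot (cyc z t.1) (cyc z (t.1 + n))) =
        E.slot (cyc z t.1) (cyc z (t.1 + 1)) ↔ ¬ tp t.1))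
      (fun i a => kx a.1.1 (E.slot (cyc w (i.1 + 1)) (cyc w i.1)) =
        E.slot (cyc w (i.1 + 1)) (cyc w (i.1 + 2)))
  let c : Fin (n + 1) ⊕ Fin (k - 1) → ℕ := Sum.elim (fun t => if tp t.1 then 2 else 1) (fun _ => 1)
  have hx : Function.Injective x := by
    rintro (s | i) (t | j) h
    · have h1 := hz.2.2.2 s.1 t.1 s.2 t.2 h
      rw [Fin.ext h1]
    · exact absurd h.symm (hw.2.2 (j.1 + 1) (by omega) (by omega) s.1)
    · exact absurd h (hw.2.2 (i.1 + 1) (by omega) (by omega) t.1)
    · have h1 := hw.1.2 (i.1 + 1) (j.1 + 1) (by omega) (by omega) h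
      rw [Fin.ext (show i.1 = j.1 by omega)]
  have hc : ∀ i, 3 * Nat.card {a : St L // Q i a} = c i * Nat.card (St L) := by
    rintro (t | i)
    · by_cases ht : tp t.1
      · have h1 : ∀ a : St L, Q (Sum.inl t) a ↔
            ¬ kx a.1.1 (E.slot (cyc z t.1) (cyc z (t.1 + n))) =
              E.slot (cyc z t.1) (cyc z (t.1 + 1)) := by
          intro a
          simp only [Q, Sum.elim_inl, ht, not_true_eq_false, iff_false]
        simp only [h1, c, Sum.elim_inl, ht, if_true]
        exact card_ne L _ _ (slot_cyc E hz t.1)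
      · have h1 : ∀ a : St L, Q (Sum.inl t) a ↔
            kx a.1.1 (E.slot (cyc z t.1) (cyc z (t.1 + n))) =
              E.slot (cyc z t.1) (cyc z (t.1 + 1)) := by
          intro a
          simp only [Q, Sum.elim_inl, ht, not_false_eq_true, iff_true]
        simp only [h1, c, Sum.elim_inl, ht, if_false]
        exact card_eq L _ _ (slot_cyc E hz t.1)
    · have hi := i.2
      simp only [Q, c, Sum.elim_inr]
      refine card_eq L _ _ ?_
      intro h
      have h1 := E.slot_inj _ _ _ (hw.1.1 i.1 (by omega)).symm (hw.1.1 (i.1 + 1) (by omega)) h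
      have h2 := hw.1.2 i.1 (i.1 + 1 + 1) (by omega) (by omega) h1
      omega
  have h0 := family hprd L _ x hx Q c hc
  have h1 : Fintype.card (Fin (n + 1) ⊕ Fin (k - 1)) = (n + 1) + (k - 1) := by
    rw [Fintype.card_sum, Fintype.card_fin, Fintype.card_fin]
  have h2 : (∏ i, c i) = 2 ^ (r + 1) := by
    rw [Fintype.prod_sum_type]
    simp only [c, Sum.elim_inl, Sum.elim_inr, Finset.prod_const_one, mul_one]
    rw [Finset.prod_ite]
    simp only [Finset.prod_const_one, mul_one, Finset.prod_const]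
    congr 1
    have h3 : (Finset.univ.filter (fun t : Fin (n + 1) => tp t.1)).card =
        ((Finset.range (n + 1)).filter tp).card := by
      rw [← Finset.card_map Fin.valEmbedding]
      congr 1
      ext t
      simp only [Finset.mem_map, Finset.mem_filter, Finset.mem_univ, true_and,
        Fin.valEmbedding_apply, Finset.mem_range]
      constructor
      · rintro ⟨a, ha, rfl⟩
        exact ⟨a.2, ha⟩
      · rintro ⟨ha, hb⟩
        exact ⟨⟨t, ha⟩, hb, rfl⟩
    rw [h3]
    have h4 : (Finset.range (n + 1)).filter tp = insert y (Finset.range r) := by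
      ext t
      simp only [Finset.mem_filter, Finset.mem_range, Finset.mem_insert, tp]
      omega
    rw [h4, Finset.card_insert_of_notMem (by simp; omega), Finset.card_range]
  rw [h1, h2, pow_add] at h0
  refine le_trans (Nat.mul_le_mul_left _ ?_) h0
  refine Nat.card_le_card_of_injective (fun ω => ⟨ω.1, ?_⟩) ?_
  · rintro (t | i)
    · exact ω.2.1 t.1 (by omega)
    · have := ω.2.2 (i.1 + 1) (by omega) (by omega)
      exact this
  · intro ω ω' h
    exact Subtype.ext (Subtype.mk.inj h)

end Pool.Agent.LAG
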